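import Pool.Agent.Helper18.HD.Fin

set_option autoImplicit false

/-! The shadow of a 3-graph without four edges on seven vertices has density at most one half
between any two large vertex sets. -/

namespace Pool.Agent.Results.MP_87578a_co.HalfDensity

open Finset

/-- For every `ε > 0` and all large `n`, let `H` be a 3-graph on `n` vertices in which every
7-vertex set contains fewer than four edges, and let `U`, `W` be any sets of vertices. At most
`|U| |W| / 2 + ε n ^ 2` of the ordered pairs `(x, y)`, `x ∈ U`, `y ∈ W`, consist of two different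
vertices of a common edge of `H`. -/
theorem result : ∀ ε : ℝ, ε > 0 → ∃ N : ℕ, ∀ n : ℕ, N ≤ n →
    ∀ H : Finset (Finset (Fin n)),
      (∀ e ∈ H, e.card = 3) →
      (∀ S : Finset (Fin n), S.card = 7 → (H.filter (fun e => e ⊆ S)).card < 4) →
      ∀ U W : Finset (Fin n),
        (((U ×ˢ W).filter (fun q => q.1 ≠ q.2 ∧ ∃ e ∈ H, q.1 ∈ e ∧ q.2 ∈ e)).card : ℝ) ≤
          (1 / 2) * ((U.card : ℝ) * (W.card : ℝ)) + ε * (n : ℝ) ^ 2 :=
  fun ε hε => Pool.Agent.Helper18.HD.half_density ε hε

end Pool.Agent.Results.MP_87578a_co.HalfDensity
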